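import Pool.Agent.V11329.LG.Prob

/-! Symmetric line growth on the square lattice. -/

set_option autoImplicit false

namespace Pool.Agent.V11329.LG

/-- horizontal arm of range `ρ` around `x` -/
def armH (ρ : ℕ) (x : ℤ × ℤ) : Set (ℤ × ℤ) := {y | y.2 = x.2 ∧ |y.1 - x.1| ≤ (ρ : ℤ)}

/-- vertical arm of range `ρ` around `x` -/
def armV (ρ : ℕ) (x : ℤ × ℤ) : Set (ℤ × ℤ) := {y | y.1 = x.1 ∧ |y.2 - x.2| ≤ (ρ : ℤ)}

/-- occupied set at time `t` of the symmetric line growth with threshold `r`, range `ρ`,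
started from `A` -/
def occ (r ρ : ℕ) (A : Set (ℤ × ℤ)) : ℕ → Set (ℤ × ℤ)
  | 0 => A
  | t + 1 => occ r ρ A t ∪
      {x | r ≤ (armH ρ x ∩ occ r ρ A t).ncard ∨ r ≤ (armV ρ x ∩ occ r ρ A t).ncard}

/-- the event `T ≤ t` for the first occupation time `T` of the origin, when the initially
occupied sites are those with `ω x = true` -/
def occBy (r ρ : ℕ) (ω : ℤ × ℤ → Bool) (t : ℝ) : Prop :=
  ∃ n : ℕ, (n : ℝ) ≤ t ∧ ((0, 0) : ℤ × ℤ) ∈ occ r ρ {x | ω x = true} n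

end Pool.Agent.V11329.LG
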