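import Pool.Agent.V11329.LG.Prob

/-! Second moment bound for the number of good groups. -/

set_option autoImplicit false

namespace Pool.Agent.V11329.LG

open MeasureTheory ProbabilityTheory

/-- indices below `n` whose event occurs -/
noncomputable def pick {Ω : Type*} (n : ℕ) (Y : ℕ → Set Ω) (ω : Ω) : Finset ℕ := by
  classical
  exact (Finset.range n).filter (fun g => ω ∈ Y g)

lemma mem_pick {Ω : Type*} (n : ℕ) (Y : ℕ → Set Ω) (ω : Ω) (g : ℕ) :
    g ∈ pick n Y ω ↔ g < n ∧ ω ∈ Y g := by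
  classical
  unfold pick
  rw [Finset.mem_filter, Finset.mem_range]

/-- number of indices below `n` whose event occurs -/
noncomputable def cnt {Ω : Type*} (n : ℕ) (Y : ℕ → Set Ω) (ω : Ω) : ℕ := (pick n Y ω).card

lemma cnt_eq {Ω : Type*} (n : ℕ) (Y : ℕ → Set Ω) (ω : Ω) :
    (cnt n Y ω : ℝ) = ∑ g ∈ Finset.range n, (Y g).indicator (fun _ => (1 : ℝ)) ω := by
  classical
  unfold cnt pick
  rw [Finset.card_filter]
  push_cast
  refine Finset.sum_congr rfl fun g _ => ?_
  by_cases h : ω ∈ Y g <;> simp [h]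

lemma second_moment {Ω : Type*} [MeasurableSpace Ω] (μ : Measure Ω) [IsProbabilityMeasure μ]
    (n : ℕ) (Y : ℕ → Set Ω) (hm : ∀ g, MeasurableSet (Y g)) (q : ℝ)
    (h1 : ∀ g < n, μ.real (Y g) = q)
    (h2 : ∀ g < n, ∀ h < n, g ≠ h → μ.real (Y g ∩ Y h) = q * q) (hq : 0 < n * q) :
    μ.real {ω | (cnt n Y ω : ℝ) < n * q / 2} ≤ 4 / (n * q) := by
  set N : Ω → ℝ := fun ω => ∑ g ∈ Finset.range n, (Y g).indicator (fun _ => (1 : ℝ)) ω with hN
  have hi : ∀ g, Integrable ((Y g).indicator (fun _ => (1 : ℝ))) μ := fun g =>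
    (integrable_const (1 : ℝ)).indicator (hm g)
  have hprod : ∀ g h ω, (Y g).indicator (fun _ => (1 : ℝ)) ω * (Y h).indicator (fun _ => (1 : ℝ)) ω
      = (Y g ∩ Y h).indicator (fun _ => (1 : ℝ)) ω := by
    intro g h ω
    by_cases a : ω ∈ Y g <;> by_cases b : ω ∈ Y h <;> simp [a, b]
  have hI : ∀ s : Set Ω, MeasurableSet s → ∫ ω, s.indicator (fun _ => (1 : ℝ)) ω ∂μ = μ.real s := by
    intro s hs
    rw [integral_indicator hs]; simp
  have e1 : ∫ ω, N ω ∂μ = n * q := by
    rw [hN]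
    rw [integral_finsetSum _ (fun g _ => hi g)]
    rw [Finset.sum_congr rfl (g := fun _ => q)]
    · simp
    · intro g hg
      rw [hI _ (hm g), h1 g (Finset.mem_range.1 hg)]
  have hNN : ∀ ω, N ω * N ω = ∑ g ∈ Finset.range n, ∑ h ∈ Finset.range n,
      (Y g ∩ Y h).indicator (fun _ => (1 : ℝ)) ω := by
    intro ω
    rw [hN]
    simp only
    rw [Finset.sum_mul_sum]
    refine Finset.sum_congr rfl fun g _ => Finset.sum_congr rfl fun h _ => hprod g h ω
  have hiNN : Integrable (fun ω => N ω * N ω) μ := by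
    simp only [hNN]
    refine integrable_finsetSum _ fun g _ => integrable_finsetSum _ fun h _ => ?_
    exact (integrable_const (1 : ℝ)).indicator ((hm g).inter (hm h))
  have hiN : Integrable N μ := by
    rw [hN]
    exact integrable_finsetSum _ fun g _ => hi g
  have e2 : ∫ ω, N ω * N ω ∂μ ≤ n * q + n * n * (q * q) - n * (q * q) := by
    simp only [hNN]
    rw [integral_finsetSum]
    swap
    · intro g _
      exact integrable_finsetSum _ fun h _ =>
        (integrable_const (1 : ℝ)).indicator ((hm g).inter (hm h))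
    have : ∀ g ∈ Finset.range n, ∫ ω, ∑ h ∈ Finset.range n,
        (Y g ∩ Y h).indicator (fun _ => (1 : ℝ)) ω ∂μ = q + n * (q * q) - q * q := by
      intro g hg
      rw [integral_finsetSum]
      swap
      · intro h _
        exact (integrable_const (1 : ℝ)).indicator ((hm g).inter (hm h))
      rw [← Finset.add_sum_erase _ _ hg, hI _ ((hm g).inter (hm g)), Set.inter_self,
        h1 g (Finset.mem_range.1 hg), Finset.sum_congr rfl (g := fun _ => q * q)]
      · rw [Finset.sum_const, Finset.card_erase_of_mem hg, Finset.card_range, nsmul_eq_mul]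
        have : 1 ≤ n := Nat.one_le_of_lt (Finset.mem_range.1 hg)
        push_cast [this]
        ring
      · intro h hh
        rw [hI _ ((hm g).inter (hm h)), h2 g (Finset.mem_range.1 hg) h
          (Finset.mem_range.1 (Finset.mem_of_mem_erase hh)) (Finset.ne_of_mem_erase hh).symm]
    rw [Finset.sum_congr rfl this, Finset.sum_const, Finset.card_range, nsmul_eq_mul]
    apply le_of_eq
    ring
  have e3 : ∫ ω, (N ω - n * q) ^ 2 ∂μ ≤ n * q := by
    have : ∀ ω, (N ω - n * q) ^ 2 = N ω * N ω - 2 * (n * q) * N ω + (n * q) ^ 2 := by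
      intro ω; ring
    simp only [this]
    have hA : Integrable (fun ω => N ω * N ω - 2 * (n * q) * N ω) μ :=
      hiNN.sub (hiN.const_mul _)
    rw [integral_add hA (integrable_const _),
      integral_sub hiNN (hiN.const_mul _), integral_const_mul, e1]
    simp only [integral_const, probReal_univ, smul_eq_mul, one_mul]
    nlinarith [mul_nonneg (Nat.cast_nonneg (α := ℝ) n) (mul_self_nonneg q)]
  have hsub : {ω | (cnt n Y ω : ℝ) < n * q / 2} ⊆ {ω | (n * q / 2) ^ 2 ≤ (N ω - n * q) ^ 2} := by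
    intro ω hω
    have h3 : (cnt n Y ω : ℝ) < n * q / 2 := hω
    rw [cnt_eq] at h3
    have h4 : N ω < n * q / 2 := h3
    show (n * q / 2) ^ 2 ≤ (N ω - n * q) ^ 2
    nlinarith
  have h5 : (n * q / 2) ^ 2 * μ.real {ω | (n * q / 2) ^ 2 ≤ (N ω - n * q) ^ 2} ≤ n * q := by
    refine le_trans (mul_meas_ge_le_integral_of_nonneg ?_ ?_ _) e3
    · exact Filter.Eventually.of_forall fun ω => sq_nonneg _
    · have : ∀ ω, (N ω - n * q) ^ 2 = N ω * N ω - 2 * (n * q) * N ω + (n * q) ^ 2 := by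
        intro ω; ring
      simp only [this]
      exact (hiNN.sub (hiN.const_mul _)).add (integrable_const _)
  have h6 := measureReal_mono hsub (measure_ne_top μ _)
  refine h6.trans ?_
  rw [le_div_iff₀ hq]
  have hq2 : 0 < (n * q / 2) ^ 2 := by positivity
  nlinarith

/-- the group event: all `s` lines of the group are hit -/
def grpEv {ι β : Type*} (s : ℕ) (B : Finset β) (cell : ℕ → β → Finset ι) : Set (ι → Bool) :=
  ⋂ i ∈ Finset.range s, lineEv B (cell i)

lemma dep_grp {ι : Type*} [DecidableEq ι] {β : Type*} (s : ℕ) (B : Finset β)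
    (cell : ℕ → β → Finset ι) :
    Dep ((Finset.range s).biUnion fun i => B.biUnion (cell i)) (grpEv s B cell) := by
  intro ω ω' hω hm
  simp only [grpEv, Set.mem_iInter] at hm ⊢
  intro i hi
  exact dep_line B (cell i) ω ω'
    (fun x hx => hω x (Finset.mem_biUnion.2 ⟨i, hi, hx⟩)) (hm i hi)

lemma prob_grp {ι : Type*} [DecidableEq ι] {p : ℝ} (hp : p ∈ Set.Icc (0 : ℝ) 1) {β : Type*}
    (s : ℕ) (B : Finset β) (cell : ℕ → β → Finset ι) (c : ℕ)
    (hc : ∀ i < s, ∀ b ∈ B, (cell i b).card = c)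
    (hd : ∀ i < s, ∀ b ∈ B, ∀ i' < s, ∀ b' ∈ B, (i, b) ≠ (i', b') →
      Disjoint (cell i b) (cell i' b')) :
    (siteLaw ι p).real (grpEv s B cell) = (1 - (1 - p ^ c) ^ B.card) ^ s := by
  unfold grpEv
  rw [prob_iInter p (Finset.range s) (fun i => B.biUnion (cell i)) _ (fun i _ => dep_line _ _)]
  · rw [Finset.prod_congr rfl (g := fun _ => 1 - (1 - p ^ c) ^ B.card), Finset.prod_const,
      Finset.card_range]
    intro i hi
    have hi' := Finset.mem_range.1 hi
    exact prob_line hp B (cell i) c (hc i hi') (fun b hb b' hb' hbb => hd i hi' b hb i hi' b' hb'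
      (by simpa using hbb))
  · intro i hi j hj hij
    rw [Finset.disjoint_biUnion_left]
    intro b hb
    rw [Finset.disjoint_biUnion_right]
    intro b' hb'
    exact hd i (Finset.mem_range.1 hi) b hb j (Finset.mem_range.1 hj) b' hb'
      (by simp [hij])

lemma round_prob {ι : Type*} [DecidableEq ι] {p : ℝ} (hp : p ∈ Set.Icc (0 : ℝ) 1) {β : Type*}
    (n s : ℕ) (B : Finset β) (cell : ℕ → ℕ → β → Finset ι) (c : ℕ)
    (hc : ∀ g < n, ∀ i < s, ∀ b ∈ B, (cell g i b).card = c)
    (hd : ∀ g < n, ∀ i < s, ∀ b ∈ B, ∀ g' < n, ∀ i' < s, ∀ b' ∈ B, (g, i, b) ≠ (g', i', b') →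
      Disjoint (cell g i b) (cell g' i' b'))
    (hq : 0 < n * (1 - (1 - p ^ c) ^ B.card) ^ s) :
    (siteLaw ι p).real {ω | (cnt n (fun g => grpEv s B (cell g)) ω : ℝ) <
      n * (1 - (1 - p ^ c) ^ B.card) ^ s / 2} ≤ 4 / (n * (1 - (1 - p ^ c) ^ B.card) ^ s) := by
  have hP : ∀ g < n, (siteLaw ι p).real (grpEv s B (cell g)) = (1 - (1 - p ^ c) ^ B.card) ^ s :=
    fun g hg => prob_grp hp s B (cell g) c (hc g hg) (fun i hi b hb i' hi' b' hb' h =>
      hd g hg i hi b hb g hg i' hi' b' hb' (by simpa using h))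
  refine second_moment (siteLaw ι p) n _ (fun g => (dep_grp s B (cell g)).meas) _ hP ?_ hq
  intro g hg h hh hgh
  rw [dep_indep p (S := (Finset.range s).biUnion fun i => B.biUnion (cell g i))
    (T := (Finset.range s).biUnion fun i => B.biUnion (cell h i)) ?_ (dep_grp s B (cell g))
    (dep_grp s B (cell h)), hP g hg, hP h hh]
  rw [Finset.disjoint_biUnion_left]
  intro i hi
  rw [Finset.disjoint_biUnion_right]
  intro i' hi'
  rw [Finset.disjoint_biUnion_left]
  intro b hb
  rw [Finset.disjoint_biUnion_right]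
  intro b' hb'
  exact hd g hg i (Finset.mem_range.1 hi) b hb h hh i' (Finset.mem_range.1 hi') b' hb'
    (by simp [hgh])

/-- conditioning on a finite-valued variable that depends on other sites -/
lemma cond_step {ι : Type*} (p : ℝ) {α : Type*} (V : Finset α) (G : (ι → Bool) → α)
    (hV : ∀ ω, G ω ∈ V) (S T : Finset ι) (hST : Disjoint S T) (hG : ∀ a, Dep S {ω | G ω = a})
    (F : α → Set (ι → Bool)) (hF : ∀ a ∈ V, Dep T (F a)) (good : α → Prop) (ε : ℝ) (hε : 0 ≤ ε)
    (h : ∀ a ∈ V, good a → (siteLaw ι p).real (F a) ≤ ε) :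
    (siteLaw ι p).real {ω | good (G ω) ∧ ω ∈ F (G ω)} ≤ ε := by
  classical
  have hsub : {ω | good (G ω) ∧ ω ∈ F (G ω)} ⊆
      ⋃ a ∈ V.filter good, ({ω | G ω = a} ∩ F a) := by
    rintro ω ⟨h1, h2⟩
    simp only [Set.mem_iUnion, Finset.mem_filter]
    exact ⟨G ω, ⟨hV ω, h1⟩, rfl, h2⟩
  refine (measureReal_mono hsub (measure_ne_top _ _)).trans ?_
  refine (measureReal_biUnion_finset_le _ _).trans ?_
  have h3 : ∀ a ∈ V.filter good, (siteLaw ι p).real ({ω | G ω = a} ∩ F a) ≤
      ε * (siteLaw ι p).real {ω | G ω = a} := by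
    intro a ha
    rw [Finset.mem_filter] at ha
    rw [dep_indep p hST (hG a) (hF a ha.1), mul_comm]
    exact mul_le_mul_of_nonneg_right (h a ha.1 ha.2) measureReal_nonneg
  refine (Finset.sum_le_sum h3).trans ?_
  rw [← Finset.mul_sum]
  have h4 : ∑ a ∈ V.filter good, (siteLaw ι p).real {ω | G ω = a} ≤ 1 := by
    rw [← measureReal_biUnion_finset]
    · exact measureReal_le_one
    · intro a _ b _ hab
      simp only [Function.onFun]
      rw [Set.disjoint_left]
      rintro ω h1 h2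
      exact hab (h1.symm.trans h2)
    · intro a _
      exact (hG a).meas
  nlinarith

end Pool.Agent.V11329.LG
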