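import Pool.Agent.V11329.LG.Defs
import Pool.Agent.V11329.LG.Mom

/-! Deterministic part: lines fill up from nuclei. -/

set_option autoImplicit false

namespace Pool.Agent.V11329.LG

variable {r ρ : ℕ} {A : Set (ℤ × ℤ)}

lemma occ_mono_succ (t : ℕ) : occ r ρ A t ⊆ occ r ρ A (t + 1) := fun _ h => Or.inl h

lemma occ_mono {s t : ℕ} (h : s ≤ t) : occ r ρ A s ⊆ occ r ρ A t := by
  induction t, h using Nat.le_induction with
  | base => exact le_rfl
  | succ n _ ih => exact ih.trans (occ_mono_succ n)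

/-- position `b` on the line `a` of orientation `k` (even: horizontal, odd: vertical) -/
def pt (k : ℕ) (a b : ℤ) : ℤ × ℤ := if k % 2 = 0 then (b, a) else (a, b)

lemma pt_swap (k : ℕ) (a b : ℤ) : pt (k + 1) a b = pt k b a := by
  unfold pt
  rcases Nat.mod_two_eq_zero_or_one k with h | h
  · have h1 : ¬ (k + 1) % 2 = 0 := by omega
    rw [if_pos h, if_neg h1]
  · have h1 : (k + 1) % 2 = 0 := by omega
    have h2 : ¬ k % 2 = 0 := by omega
    rw [if_neg h2, if_pos h1]

lemma ncard_ge {M : Set (ℤ × ℤ)} (hM : M.Finite) (n : ℕ) (f : ℕ → ℤ × ℤ)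
    (hinj : ∀ i < n, ∀ j < n, f i = f j → i = j) (hf : ∀ i < n, f i ∈ M) : n ≤ M.ncard := by
  classical
  have h1 : ((Finset.range n).image f).card = n := by
    rw [Finset.card_image_of_injOn, Finset.card_range]
    intro i hi j hj hij
    exact hinj i (Finset.mem_range.1 hi) j (Finset.mem_range.1 hj) hij
  rw [← h1, ← Set.ncard_coe_finset]
  refine Set.ncard_le_ncard ?_ hM
  intro x hx
  rw [Finset.mem_coe, Finset.mem_image] at hx
  obtain ⟨i, hi, rfl⟩ := hx
  exact hf i (Finset.mem_range.1 hi)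

lemma armH_fin (x : ℤ × ℤ) : (armH ρ x).Finite := by
  refine Set.Finite.subset (Set.Finite.prod (Set.finite_Icc (x.1 - ρ) (x.1 + ρ))
    (Set.finite_singleton x.2)) ?_
  rintro ⟨u, v⟩ ⟨h1, h2⟩
  simp only at h1 h2
  rw [abs_le] at h2
  refine ⟨?_, h1⟩
  simp only [Set.mem_Icc]
  omega

lemma armV_fin (x : ℤ × ℤ) : (armV ρ x).Finite := by
  refine Set.Finite.subset (Set.Finite.prod (Set.finite_singleton x.1)
    (Set.finite_Icc (x.2 - ρ) (x.2 + ρ))) ?_
  rintro ⟨u, v⟩ ⟨h1, h2⟩
  simp only at h1 h2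
  rw [abs_le] at h2
  refine ⟨h1, ?_⟩
  simp only [Set.mem_Icc]
  omega

lemma grow_one (k : ℕ) (a x : ℤ) (s : ℕ) (f : ℕ → ℤ)
    (hinj : ∀ i < r, ∀ j < r, f i = f j → i = j) (hd : ∀ i < r, |f i - x| ≤ (ρ : ℤ))
    (hf : ∀ i < r, pt k a (f i) ∈ occ r ρ A s) : pt k a x ∈ occ r ρ A (s + 1) := by
  right
  rcases Nat.mod_two_eq_zero_or_one k with h | h
  · left
    refine ncard_ge ((armH_fin _).inter_of_left _) r (fun i => pt k a (f i)) ?_ ?_
    · intro i hi j hj hij
      simp only [pt, if_pos h, Prod.mk.injEq, and_true] at hij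
      exact hinj i hi j hj hij
    · intro i hi
      refine ⟨?_, hf i hi⟩
      simp only [pt, if_pos h, armH, Set.mem_ofPred_eq, true_and]
      exact hd i hi
  · right
    have h' : ¬ k % 2 = 0 := by omega
    refine ncard_ge ((armV_fin _).inter_of_left _) r (fun i => pt k a (f i)) ?_ ?_
    · intro i hi j hj hij
      simp only [pt, if_neg h', Prod.mk.injEq, true_and] at hij
      exact hinj i hi j hj hij
    · intro i hi
      refine ⟨?_, hf i hi⟩
      simp only [pt, if_neg h', armV, Set.mem_ofPred_eq, true_and]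
      exact hd i hi

lemma spread (hρ : r ≤ ρ) (k : ℕ) (a c : ℤ) (s : ℕ)
    (h : ∀ j : ℕ, j < r → pt k a (c + j) ∈ occ r ρ A s) :
    ∀ d : ℕ, ∀ x : ℤ, c - d ≤ x → x ≤ c + r - 1 + d → pt k a x ∈ occ r ρ A (s + d) := by
  intro d
  induction d with
  | zero =>
    intro x h1 h2
    have := h (x - c).toNat (by omega)
    rwa [show c + ((x - c).toNat : ℤ) = x by omega] at this
  | succ d ih =>
    intro x h1 h2
    push_cast at h1 h2
    by_cases hl : x = c - d - 1
    · refine grow_one k a x (s + d) (fun j => x + 1 + j) (fun i _ j _ hij => by simp at hij; omega)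
        (fun i hi => by rw [abs_le]; constructor <;> omega) (fun i hi => ih _ (by omega) ?_)
      omega
    · by_cases hr : x = c + r + d
      · refine grow_one k a x (s + d) (fun j => x - 1 - j) (fun i _ j _ hij => by simp at hij; omega)
          (fun i hi => by rw [abs_le]; constructor <;> omega) (fun i hi => ih _ ?_ (by omega))
        omega
      · exact occ_mono_succ _ (ih x (by omega) (by omega))

/-- number of groups of lines in round `k` -/
def nn (N K k : ℕ) : ℕ := N * 2 ^ (K + 1 - k)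

/-- the `i`-th line of group `g` when there are `n` groups of size `r` -/
def line (r n g i : ℕ) : ℕ := r * n + r * g + i

/-- cells of the initial round: `r` consecutive sites on a line -/
def cell0 (r n g i b : ℕ) : Finset (ℤ × ℤ) :=
  (Finset.range r).image fun j : ℕ => pt 0 (line r n g i : ℕ) ((r * b + j : ℕ) : ℤ)

/-- cells of the later rounds: the site next to a good group of the previous round -/
def cell1 (r k n n' g i b : ℕ) : Finset (ℤ × ℤ) :=
  {pt (k + 1) (line r n' g i : ℕ) (line r n b (r - 1) : ℕ)}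

/-- good groups of round `k` -/
noncomputable def good (r N K : ℕ) (ω : ℤ × ℤ → Bool) : ℕ → Finset ℕ
  | 0 => pick (nn N K 0)
      (fun g => grpEv (r - 1) (Finset.range (nn N K 0)) (cell0 r (nn N K 0) g)) ω
  | k + 1 => pick (nn N K (k + 1))
      (fun g => grpEv (r - 1) (good r N K ω k) (cell1 r k (nn N K k) (nn N K (k + 1)) g)) ω

lemma good_sub (r N K : ℕ) (ω : ℤ × ℤ → Bool) (k : ℕ) :
    good r N K ω k ⊆ Finset.range (nn N K k) := by
  intro g hg
  rw [Finset.mem_range]
  cases k <;> exact ((mem_pick _ _ _ _).1 hg).1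

lemma nn_succ {N K k : ℕ} (h : k ≤ K) : nn N K k = 2 * nn N K (k + 1) := by
  unfold nn
  rw [show K + 1 - k = (K + 1 - (k + 1)) + 1 by omega, pow_succ]
  ring

/-- time by which the lines of round `k` are full -/
def tau (r N K : ℕ) : ℕ → ℕ
  | 0 => r * nn N K 0
  | k + 1 => tau r N K k + 2 * r * nn N K k

/-- The lines of good groups are full on the relevant segment. -/
lemma full_lines (hr : 1 ≤ r) (hρ : r ≤ ρ) (N K : ℕ) (ω : ℤ × ℤ → Bool) :
    ∀ k ≤ K + 1, ∀ g ∈ good r N K ω k, ∀ i < r - 1, ∀ b : ℤ, 0 ≤ b → b ≤ r * nn N K k →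
      pt k (line r (nn N K k) g i : ℕ) b ∈ occ r ρ {x | ω x = true} (tau r N K k) := by
  intro k
  induction k with
  | zero =>
    intro _ g hg i hi b hb0 hb1
    simp only [good, mem_pick, grpEv, Set.mem_iInter, Finset.mem_range] at hg
    obtain ⟨b', hb', hx⟩ := hg.2 i hi
    rw [Finset.mem_range] at hb'
    have hseed : ∀ j : ℕ, j < r → pt 0 (line r (nn N K 0) g i : ℕ) ((r * b' : ℕ) + j : ℤ) ∈
        occ r ρ {x | ω x = true} 0 := by
      intro j hj
      have := hx (pt 0 (line r (nn N K 0) g i : ℕ) ((r * b' + j : ℕ) : ℤ))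
        (Finset.mem_image.2 ⟨j, Finset.mem_range.2 hj, rfl⟩)
      show _ = true
      rw [← this]
      push_cast
      rfl
    have hle : r * b' + r ≤ r * nn N K 0 := by
      have : r * (b' + 1) ≤ r * nn N K 0 := Nat.mul_le_mul le_rfl hb'
      linarith
    have := spread hρ 0 (line r (nn N K 0) g i : ℕ) (r * b' : ℕ) 0 hseed (r * nn N K 0) b
      (by push_cast; push_cast at hle; zify at hle; linarith)
      (by push_cast; zify at hr; nlinarith)
    rw [zero_add] at this
    exact this
  | succ k ih =>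
    intro hk g hg i hi b hb0 hb1
    simp only [good, mem_pick, grpEv, Set.mem_iInter, Finset.mem_range] at hg
    obtain ⟨b', hb', hx⟩ := hg.2 i hi
    have hx' := hx _ (Finset.mem_singleton_self _)
    have hn := nn_succ (N := N) (K := K) (k := k) (by omega)
    have hgl : line r (nn N K (k + 1)) g i ≤ r * nn N K k := by
      unfold line
      have h1 : r * (g + 1) ≤ r * nn N K (k + 1) := Nat.mul_le_mul le_rfl hg.1
      have hi2 : i < r := by omega
      rw [hn]
      nlinarith
    have hseed : ∀ j : ℕ, j < r → pt (k + 1) (line r (nn N K (k + 1)) g i : ℕ)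
        ((line r (nn N K k) b' 0 : ℕ) + j : ℤ) ∈ occ r ρ {x | ω x = true} (tau r N K k) := by
      intro j hj
      have e : ((line r (nn N K k) b' 0 : ℕ) + j : ℤ) = (line r (nn N K k) b' j : ℕ) := by
        unfold line; push_cast; ring
      rw [e]
      by_cases hj' : j < r - 1
      · rw [pt_swap]
        exact ih (by omega) b' hb' j hj' _ (by positivity) (by exact_mod_cast hgl)
      · have : j = r - 1 := by omega
        rw [this]
        exact occ_mono (Nat.zero_le _) hx'
    have hb'' : b' < nn N K k := Finset.mem_range.1 (good_sub r N K ω k hb')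
    have hle : line r (nn N K k) b' 0 ≤ 2 * r * nn N K k := by
      unfold line
      have h1 : r * (b' + 1) ≤ r * nn N K k := Nat.mul_le_mul le_rfl hb''
      nlinarith
    refine spread hρ (k + 1) (line r (nn N K (k + 1)) g i : ℕ) (line r (nn N K k) b' 0 : ℕ) _
      hseed (2 * r * nn N K k) b ?_ ?_
    · have : ((line r (nn N K k) b' 0 : ℕ) : ℤ) ≤ ((2 * r * nn N K k : ℕ) : ℤ) := by
        exact_mod_cast hle
      linarith
    · have h2 : ((r * nn N K (k + 1) : ℕ) : ℤ) ≤ ((2 * r * nn N K k : ℕ) : ℤ) := by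
        have : r * nn N K (k + 1) ≤ 2 * r * nn N K k := by rw [hn]; nlinarith
        exact_mod_cast this
      have h3 : (0 : ℤ) ≤ ((line r (nn N K k) b' 0 : ℕ) : ℤ) := by positivity
      have h4 : (1 : ℤ) ≤ r := by exact_mod_cast hr
      push_cast at h2 h3 ⊢
      linarith

/-- the final event: in the last round all `r` lines of some group are hit -/
def finEv (r N K : ℕ) (B : Finset ℕ) (g : ℕ) : Set (ℤ × ℤ → Bool) :=
  grpEv r B (cell1 r K (nn N K K) (nn N K (K + 1)) g)

lemma origin_occ (hr : 1 ≤ r) (hρ : r ≤ ρ) (N K : ℕ) (ω : ℤ × ℤ → Bool) (g : ℕ)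
    (hg : g < nn N K (K + 1)) (h : ω ∈ finEv r N K (good r N K ω K) g) :
    ((0, 0) : ℤ × ℤ) ∈ occ r ρ {x | ω x = true} (tau r N K (K + 2)) := by
  have hn := nn_succ (N := N) (K := K) (k := K) le_rfl
  have hgl : ∀ i < r, line r (nn N K (K + 1)) g i ≤ r * nn N K K := by
    intro i hi
    unfold line
    have h1 : r * (g + 1) ≤ r * nn N K (K + 1) := Nat.mul_le_mul le_rfl hg
    rw [hn]
    nlinarith
  have hfull : ∀ i < r, pt (K + 1) (line r (nn N K (K + 1)) g i : ℕ) 0 ∈
      occ r ρ {x | ω x = true} (tau r N K (K + 1)) := by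
    intro i hi
    simp only [finEv, grpEv, Set.mem_iInter, Finset.mem_range] at h
    obtain ⟨b', hb', hx⟩ := h i hi
    have hx' := hx _ (Finset.mem_singleton_self _)
    have hseed : ∀ j : ℕ, j < r → pt (K + 1) (line r (nn N K (K + 1)) g i : ℕ)
        ((line r (nn N K K) b' 0 : ℕ) + j : ℤ) ∈ occ r ρ {x | ω x = true} (tau r N K K) := by
      intro j hj
      have e : ((line r (nn N K K) b' 0 : ℕ) + j : ℤ) = (line r (nn N K K) b' j : ℕ) := by
        unfold line; push_cast; ring
      rw [e]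
      by_cases hj' : j < r - 1
      · rw [pt_swap]
        exact full_lines hr hρ N K ω K (by omega) b' hb' j hj' _ (by positivity)
          (by exact_mod_cast hgl i hi)
      · have : j = r - 1 := by omega
        rw [this]
        exact occ_mono (Nat.zero_le _) hx'
    have hb'' : b' < nn N K K := Finset.mem_range.1 (good_sub r N K ω K hb')
    have hle : line r (nn N K K) b' 0 ≤ 2 * r * nn N K K := by
      unfold line
      have h1 : r * (b' + 1) ≤ r * nn N K K := Nat.mul_le_mul le_rfl hb''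
      nlinarith
    refine spread hρ (K + 1) (line r (nn N K (K + 1)) g i : ℕ) (line r (nn N K K) b' 0 : ℕ) _
      hseed (2 * r * nn N K K) 0 ?_ ?_
    · have : ((line r (nn N K K) b' 0 : ℕ) : ℤ) ≤ ((2 * r * nn N K K : ℕ) : ℤ) := by
        exact_mod_cast hle
      linarith
    · have h3 : (0 : ℤ) ≤ ((line r (nn N K K) b' 0 : ℕ) : ℤ) := by positivity
      have h4 : (1 : ℤ) ≤ r := by exact_mod_cast hr
      have h5 : (0 : ℤ) ≤ ((2 * r * nn N K K : ℕ) : ℤ) := by positivity
      linarith
  have hseed : ∀ j : ℕ, j < r → pt (K + 2) 0 ((line r (nn N K (K + 1)) g 0 : ℕ) + j : ℤ) ∈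
      occ r ρ {x | ω x = true} (tau r N K (K + 1)) := by
    intro j hj
    have e : ((line r (nn N K (K + 1)) g 0 : ℕ) + j : ℤ) = (line r (nn N K (K + 1)) g j : ℕ) := by
      unfold line; push_cast; ring
    rw [e, show K + 2 = (K + 1) + 1 from rfl, pt_swap]
    exact hfull j hj
  have hle : line r (nn N K (K + 1)) g 0 ≤ 2 * r * nn N K (K + 1) := by
    unfold line
    have h1 : r * (g + 1) ≤ r * nn N K (K + 1) := Nat.mul_le_mul le_rfl hg
    nlinarith
  have := spread hρ (K + 2) 0 (line r (nn N K (K + 1)) g 0 : ℕ) _ hseed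
    (2 * r * nn N K (K + 1)) 0 ?_ ?_
  · have e : pt (K + 2) 0 0 = ((0, 0) : ℤ × ℤ) := by unfold pt; split_ifs <;> rfl
    rw [e] at this
    exact this
  · have : ((line r (nn N K (K + 1)) g 0 : ℕ) : ℤ) ≤ ((2 * r * nn N K (K + 1) : ℕ) : ℤ) := by
      exact_mod_cast hle
    linarith
  · have h3 : (0 : ℤ) ≤ ((line r (nn N K (K + 1)) g 0 : ℕ) : ℤ) := by positivity
    have h4 : (1 : ℤ) ≤ r := by exact_mod_cast hr
    have h5 : (0 : ℤ) ≤ ((2 * r * nn N K (K + 1) : ℕ) : ℤ) := by positivity
    linarith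

lemma tau_bound (r N K : ℕ) : ∀ k ≤ K + 1,
    tau r N K k + 4 * r * nn N K k ≤ 5 * r * nn N K 0 := by
  intro k
  induction k with
  | zero => intro _; simp only [tau]; nlinarith
  | succ k ih =>
    intro hk
    have := ih (by omega)
    have hn := nn_succ (N := N) (K := K) (k := k) (by omega)
    simp only [tau]
    nlinarith

lemma tau_final (r N K : ℕ) : tau r N K (K + 2) ≤ 5 * r * nn N K 0 := by
  have := tau_bound r N K (K + 1) le_rfl
  show tau r N K (K + 1) + 2 * r * nn N K (K + 1) ≤ _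
  nlinarith

end Pool.Agent.V11329.LG
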