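import Pool.Agent.V11329.LG.Round

/-! Choice of the parameters. -/

set_option autoImplicit false

namespace Pool.Agent.V11329.LG

open MeasureTheory ProbabilityTheory Filter Topology

lemma one_sub_pow_le {p : ℝ} (h0 : 0 ≤ p) (h1 : p ≤ 1) (j : ℕ) (x : ℝ) (hx0 : 0 ≤ x)
    (hx : x ≤ j * p) : (1 - p) ^ j ≤ 1 / (1 + x) := by
  rw [le_div_iff₀ (by linarith)]
  have h2 : 1 + (j : ℝ) * p ≤ (1 + p) ^ j := one_add_mul_le_pow (by linarith) j
  have h3 : 0 ≤ (1 - p) ^ j := pow_nonneg (by linarith) j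
  calc (1 - p) ^ j * (1 + x) ≤ (1 - p) ^ j * (1 + p) ^ j := by
        apply mul_le_mul_of_nonneg_left _ h3
        linarith
    _ = ((1 - p) * (1 + p)) ^ j := by rw [mul_pow]
    _ ≤ 1 := pow_le_one₀ (by nlinarith) (by nlinarith)

lemma theta_small {p : ℝ} (h0 : 0 ≤ p) (h1 : p ≤ 1) (j : ℕ) (x : ℝ) (hx0 : 0 ≤ x)
    (hx : x ≤ j * p) (hx1 : x ≤ 1) : x / 2 ≤ 1 - (1 - p) ^ j := by
  have h := one_sub_pow_le h0 h1 j x hx0 hx
  have h2 : 1 / (1 + x) ≤ 1 - x / 2 := by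
    rw [div_le_iff₀ (by linarith)]
    nlinarith
  linarith

lemma theta_large {p : ℝ} (h0 : 0 ≤ p) (h1 : p ≤ 1) (j : ℕ) (hx : 1 ≤ j * p) :
    1 / 2 ≤ 1 - (1 - p) ^ j := by
  have := theta_small h0 h1 j 1 (by norm_num) hx le_rfl
  linarith

/-- thresholds -/
noncomputable def mm (B : ℕ) (k : ℕ) : ℝ := B * 2 ^ (k + 2 ^ k)

lemma mm_pos {B : ℕ} (hB : 1 ≤ B) (k : ℕ) : 0 < mm B k := by
  unfold mm
  have : (1 : ℝ) ≤ B := by exact_mod_cast hB
  positivity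

lemma mm_ge {B : ℕ} (k : ℕ) : (B : ℝ) * 2 ^ k ≤ mm B k := by
  unfold mm
  exact mul_le_mul_of_nonneg_left (pow_le_pow_right₀ (by norm_num) (Nat.le_add_right _ _))
    (by positivity)

lemma mm_rec {B : ℕ} (hB : (16 : ℝ) ≤ B) (k : ℕ) :
    2 * mm B (k + 1) ≤ B / 2 ^ (k + 1) * (mm B k / 2) ^ 2 := by
  unfold mm
  rw [div_mul_eq_mul_div, le_div_iff₀ (by positivity)]
  have e1 : (2 : ℝ) ^ (k + 1 + 2 ^ (k + 1)) = 2 * 2 ^ k * (2 ^ (2 ^ k)) ^ 2 := by
    rw [← pow_mul, ← pow_succ, pow_add, pow_succ]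
    ring
  have e2 : (2 : ℝ) ^ (k + 2 ^ k) = 2 ^ k * 2 ^ (2 ^ k) := pow_add _ _ _
  have e3 : (2 : ℝ) ^ (k + 1) = 2 ^ k * 2 := pow_succ _ _
  rw [e1, e2, e3]
  set a : ℝ := 2 ^ k
  set b : ℝ := 2 ^ (2 ^ k)
  have h : (B : ℝ) * 32 * (a ^ 2 * b ^ 2) ≤ B * B ^ 2 * (a ^ 2 * b ^ 2) := by
    apply mul_le_mul_of_nonneg_right _ (by positivity)
    apply mul_le_mul_of_nonneg_left _ (by positivity)
    nlinarith
  have l1 : 2 * (B * (2 * a * b ^ 2)) * (a * 2) = (B : ℝ) * 32 * (a ^ 2 * b ^ 2) / 4 := by ring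
  have l2 : (B : ℝ) * (B * (a * b) / 2) ^ 2 = B * B ^ 2 * (a ^ 2 * b ^ 2) / 4 := by ring
  rw [l1, l2]
  linarith

set_option maxHeartbeats 2000000 in
theorem quant (r ρ B : ℕ) (hr : 3 ≤ r) (hρ : r ≤ ρ) (hB : 2 ^ (r + 1) ≤ B) (p : ℝ) (hp0 : 0 < p)
    (hp1 : p * (2 * B) < 1) :
    ∃ n : ℕ, (n : ℝ) ≤ 5 * r * (B + 1) * (p ^ (r - 1))⁻¹ ∧
      (siteLaw (ℤ × ℤ) p).real {ω | ((0, 0) : ℤ × ℤ) ∉ occ r ρ {x | ω x = true} n} ≤ 12 / B := by
  have hB16 : (16 : ℝ) ≤ B := by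
    have h1 : (2 : ℕ) ^ (3 + 1) ≤ 2 ^ (r + 1) := Nat.pow_le_pow_right (by norm_num) (by omega)
    have h2 : 16 ≤ B := by
      calc 16 = 2 ^ (3 + 1) := by norm_num
        _ ≤ B := h1.trans hB
    exact_mod_cast h2
  have hBr : (2 : ℝ) ^ (r + 1) ≤ B := by exact_mod_cast hB
  have hp : p ≤ 1 := by nlinarith
  have hpI : p ∈ Set.Icc (0 : ℝ) 1 := ⟨hp0.le, hp⟩
  have hB1 : 1 ≤ B := by
    have : (1 : ℝ) ≤ B := by linarith
    exact_mod_cast this
  -- choice of `K`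
  have hex : ∃ k, 1 ≤ mm B k * p := by
    obtain ⟨k, hk⟩ := pow_unbounded_of_one_lt (1 / p) (show (1 : ℝ) < 2 by norm_num)
    refine ⟨k, ?_⟩
    have h1 := mm_ge (B := B) k
    have h2 : 1 / p ≤ mm B k := by
      have : (2 : ℝ) ^ k ≤ B * 2 ^ k := by
        have : (0 : ℝ) < 2 ^ k := by positivity
        nlinarith
      linarith
    rw [div_le_iff₀ hp0] at h2
    exact h2
  classical
  set K := Nat.find hex with hK
  have hKs : 1 ≤ mm B K * p := Nat.find_spec hex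
  have hKm : ∀ k < K, mm B k * p < 1 := fun k hk => not_le.1 (Nat.find_min hex hk)
  have hK1 : 1 ≤ K := by
    by_contra h
    have h0 : K = 0 := by omega
    rw [h0] at hKs
    have : mm B 0 = 2 * B := by unfold mm; norm_num; ring
    rw [this] at hKs
    linarith
  set Q : ℝ := (p ^ (r - 1))⁻¹ with hQ
  have hQ0 : 0 < Q := by positivity
  have hQp : Q * p ^ (r - 1) = 1 := inv_mul_cancel₀ (by positivity)
  have hQ1 : 1 / p ≤ Q := by
    rw [hQ, ← one_div]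
    apply one_div_le_one_div_of_le (by positivity)
    calc p ^ (r - 1) ≤ p ^ 1 := pow_le_pow_of_le_one hp0.le hp (by omega)
      _ = p := pow_one p
  have h2K : (2 : ℝ) ^ (K + 1) ≤ 4 / (B * p) := by
    have h1 := hKm (K - 1) (by omega)
    have h2 := mm_ge (B := B) (K - 1)
    have h3 : (B : ℝ) * 2 ^ (K - 1) * p < 1 := by nlinarith
    rw [le_div_iff₀ (by positivity)]
    have : (2 : ℝ) ^ (K + 1) = 4 * 2 ^ (K - 1) := by
      rw [show K + 1 = (K - 1) + 2 by omega, pow_add]; norm_num; ring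
    rw [this]
    nlinarith
  set N : ℕ := ⌈B * Q / 2 ^ (K + 1)⌉₊ with hN
  have hNge : B * Q / 2 ^ (K + 1) ≤ N := Nat.le_ceil _
  have hNle : (N : ℝ) ≤ B * Q / 2 ^ (K + 1) + 1 := (Nat.ceil_lt_add_one (by positivity)).le
  have hnk : ∀ k ≤ K + 1, B * Q / 2 ^ k ≤ nn N K k := by
    intro k hk
    unfold nn
    push_cast
    have h1 : (2 : ℝ) ^ (K + 1) = 2 ^ k * 2 ^ (K + 1 - k) := by
      rw [← pow_add]; congr 1; omega
    calc B * Q / 2 ^ k = B * Q / 2 ^ (K + 1) * 2 ^ (K + 1 - k) := by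
          rw [h1]; field_simp
      _ ≤ N * 2 ^ (K + 1 - k) := mul_le_mul_of_nonneg_right hNge (by positivity)
  have hn0 : (nn N K 0 : ℝ) ≤ (B + 1) * Q := by
    unfold nn
    push_cast
    have h1 : (N : ℝ) * 2 ^ (K + 1) ≤ B * Q + 2 ^ (K + 1) := by
      calc (N : ℝ) * 2 ^ (K + 1) ≤ (B * Q / 2 ^ (K + 1) + 1) * 2 ^ (K + 1) :=
            mul_le_mul_of_nonneg_right hNle (by positivity)
        _ = B * Q + 2 ^ (K + 1) := by field_simp
    have h2 : 4 / (B * p) ≤ Q := by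
      refine le_trans ?_ hQ1
      rw [div_le_div_iff₀ (by positivity) hp0]
      nlinarith
    linarith
  refine ⟨5 * r * nn N K 0, ?_, ?_⟩
  · push_cast
    have : (0 : ℝ) ≤ 5 * r := by positivity
    nlinarith
  -- verification of the three hypotheses
  have hr2 : 2 ≤ r - 1 := by omega
  have hsq : ∀ x : ℝ, 1 ≤ x → x ^ 2 ≤ x ^ (r - 1) := fun x hx => pow_le_pow_right₀ hx hr2
  have hpr : p ^ r = p * p ^ (r - 1) := by
    rw [← pow_succ']; congr 1; omega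
  have H0 : 2 * mm B 0 ≤ nn N K 0 * (1 - (1 - p ^ r) ^ nn N K 0) ^ (r - 1) := by
    have h1 := hnk 0 (by omega)
    rw [pow_zero, div_one] at h1
    have h2 : B * p ≤ nn N K 0 * p ^ r := by
      calc B * p = B * Q * p ^ r := by rw [hpr]; linear_combination (-B * p) * hQp
        _ ≤ nn N K 0 * p ^ r := mul_le_mul_of_nonneg_right h1 (by positivity)
    have h3 := theta_small (p := p ^ r) (by positivity) (pow_le_one₀ hp0.le hp) (nn N K 0)
      (B * p) (by positivity) h2 (by linarith)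
    have h4 : (B * p / 2) ^ (r - 1) ≤ (1 - (1 - p ^ r) ^ nn N K 0) ^ (r - 1) :=
      pow_le_pow_left₀ (by positivity) h3 _
    have h5 : (B : ℝ) * Q * (B * p / 2) ^ (r - 1) = B * (B / 2) ^ (r - 1) := by
      rw [show (B : ℝ) * p / 2 = (B / 2) * p by ring, mul_pow]
      linear_combination (B * (B / 2 : ℝ) ^ (r - 1)) * hQp
    have h6 := hsq (B / 2 : ℝ) (by linarith)
    have h7 : mm B 0 = 2 * B := by unfold mm; norm_num; ring
    calc 2 * mm B 0 = B * 4 := by rw [h7]; ring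
      _ ≤ B * (B / 2) ^ 2 := by
          apply mul_le_mul_of_nonneg_left _ (by positivity)
          nlinarith
      _ ≤ B * (B / 2) ^ (r - 1) := mul_le_mul_of_nonneg_left h6 (by positivity)
      _ = B * Q * (B * p / 2) ^ (r - 1) := h5.symm
      _ ≤ nn N K 0 * (1 - (1 - p ^ r) ^ nn N K 0) ^ (r - 1) :=
          mul_le_mul h1 h4 (by positivity) (by positivity)
  have H1 : ∀ k < K, ∀ j : ℕ, mm B k ≤ j →
      2 * mm B (k + 1) ≤ nn N K (k + 1) * (1 - (1 - p) ^ j) ^ (r - 1) := by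
    intro k hk j hj
    have h1 := hnk (k + 1) (by omega)
    have hmk := mm_pos hB1 k
    have h3 := theta_small hp0.le hp j (mm B k * p) (by positivity)
      (mul_le_mul_of_nonneg_right hj hp0.le) (hKm k hk).le
    have h4 : (mm B k * p / 2) ^ (r - 1) ≤ (1 - (1 - p) ^ j) ^ (r - 1) :=
      pow_le_pow_left₀ (by positivity) h3 _
    have h5 : (B : ℝ) * Q / 2 ^ (k + 1) * (mm B k * p / 2) ^ (r - 1) =
        B / 2 ^ (k + 1) * (mm B k / 2) ^ (r - 1) := by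
      rw [show mm B k * p / 2 = (mm B k / 2) * p by ring, mul_pow]
      linear_combination (B / 2 ^ (k + 1) * (mm B k / 2) ^ (r - 1)) * hQp
    have h6 := hsq (mm B k / 2) (by
      have := mm_ge (B := B) k
      have h2 : (1 : ℝ) ≤ 2 ^ k := one_le_pow₀ (by norm_num)
      nlinarith)
    have h7 := mm_rec hB16 k
    calc 2 * mm B (k + 1) ≤ B / 2 ^ (k + 1) * (mm B k / 2) ^ 2 := h7
      _ ≤ B / 2 ^ (k + 1) * (mm B k / 2) ^ (r - 1) := mul_le_mul_of_nonneg_left h6 (by positivity)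
      _ = B * Q / 2 ^ (k + 1) * (mm B k * p / 2) ^ (r - 1) := h5.symm
      _ ≤ nn N K (k + 1) * (1 - (1 - p) ^ j) ^ (r - 1) :=
          mul_le_mul h1 h4 (by positivity) (by positivity)
  set D : ℝ := B ^ 2 / (8 * 2 ^ r * p) with hD
  have h2r : (2 : ℝ) ^ r * 2 ≤ B := by rw [← pow_succ]; exact hBr
  have hD1 : 1 ≤ D := by
    rw [hD, le_div_iff₀ (by positivity)]
    have : (0 : ℝ) < 2 ^ r := by positivity
    nlinarith
  have H2 : ∀ j : ℕ, mm B K ≤ j → 2 * D ≤ nn N K (K + 1) * (1 - (1 - p) ^ j) ^ r := by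
    intro j hj
    have h1 := hnk (K + 1) le_rfl
    have h3 := theta_large hp0.le hp j (hKs.trans (mul_le_mul_of_nonneg_right hj hp0.le))
    have h4 : (1 / 2 : ℝ) ^ r ≤ (1 - (1 - p) ^ j) ^ r := pow_le_pow_left₀ (by norm_num) h3 _
    have h5 : B ^ 2 / (4 * p) ≤ (nn N K (K + 1) : ℝ) := by
      refine le_trans ?_ h1
      rw [div_le_div_iff₀ (by positivity) (by positivity)]
      rw [le_div_iff₀ (by positivity)] at h2K
      have h8 : 1 ≤ Q * p ^ 2 := by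
        rw [← hQp]
        exact mul_le_mul_of_nonneg_left (pow_le_pow_of_le_one hp0.le hp hr2) hQ0.le
      calc (B : ℝ) ^ 2 * 2 ^ (K + 1) ≤ B ^ 2 * 2 ^ (K + 1) * (Q * p ^ 2) :=
            le_mul_of_one_le_right (by positivity) h8
        _ = (2 ^ (K + 1) * (B * p)) * (B * Q * p) := by ring
        _ ≤ 4 * (B * Q * p) := mul_le_mul_of_nonneg_right h2K (by positivity)
        _ = B * Q * (4 * p) := by ring
    calc 2 * D = B ^ 2 / (4 * p) * (1 / 2) ^ r := by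
          rw [hD, one_div, inv_pow]; field_simp; ring
      _ ≤ nn N K (K + 1) * (1 - (1 - p) ^ j) ^ r :=
          mul_le_mul h5 h4 (by positivity) (by positivity)
  refine (main_prob (by omega) hρ hpI (mm B) (mm_pos hB1) H0 H1 D hD1 H2).trans ?_
  have hs : ∑ i ∈ Finset.range (K + 1), 2 / mm B i ≤ 4 / B := by
    have h1 : ∀ i ∈ Finset.range (K + 1), 2 / mm B i ≤ 2 / B * (1 / 2) ^ i := by
      intro i _
      have h2 := mm_ge (B := B) i
      have h3 : (0 : ℝ) < B * 2 ^ i := by positivity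
      calc 2 / mm B i ≤ 2 / (B * 2 ^ i) := div_le_div_of_nonneg_left (by norm_num) h3 h2
        _ = 2 / B * (1 / 2) ^ i := by rw [one_div, inv_pow]; field_simp
    refine (Finset.sum_le_sum h1).trans ?_
    rw [← Finset.mul_sum]
    have h4 : ∑ i ∈ Finset.range (K + 1), (1 / 2 : ℝ) ^ i ≤ 2 := sum_geometric_two_le _
    calc 2 / (B : ℝ) * ∑ i ∈ Finset.range (K + 1), (1 / 2 : ℝ) ^ i ≤ 2 / B * 2 :=
          mul_le_mul_of_nonneg_left h4 (by positivity)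
      _ = 4 / B := by ring
  have hD2 : 2 / D ≤ 8 / B := by
    rw [hD, div_div_eq_mul_div, div_le_div_iff₀ (by positivity) (by positivity)]
    have h1 : (0 : ℝ) < 2 ^ r := by positivity
    have h2 : 2 * (8 * 2 ^ r * p) * (B : ℝ) ≤ 8 * 2 ^ r := by nlinarith
    nlinarith
  calc _ ≤ 4 / (B : ℝ) + 8 / B := add_le_add hs hD2
    _ = 12 / B := by ring

/-- If `t(p) p^(r-1) → ∞` then the origin is occupied by time `t(p)` with probability tending
to one. -/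
theorem tendsto_one (r ρ : ℕ) (hr : 3 ≤ r) (hρ : r ≤ ρ) (t : ℝ → ℝ)
    (ht : Tendsto (fun p => t p * p ^ (r - 1)) (𝓝[>] 0) atTop) :
    Tendsto (fun p => (siteLaw (ℤ × ℤ) p).real {ω | occBy r ρ ω (t p)}) (𝓝[>] 0) (𝓝 1) := by
  rw [Metric.tendsto_nhds]
  intro ε hε
  obtain ⟨B, hB⟩ := exists_nat_gt (max (12 / ε) (2 ^ (r + 1)))
  have hB1 : 12 / ε < B := (le_max_left _ _).trans_lt hB
  have hB2 : (2 : ℝ) ^ (r + 1) < B := (le_max_right _ _).trans_lt hB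
  have hB3 : 2 ^ (r + 1) ≤ B := by exact_mod_cast hB2.le
  have hB0 : (0 : ℝ) < B := lt_trans (by positivity) hB2
  have e1 : ∀ᶠ p : ℝ in 𝓝[>] 0, 0 < p := self_mem_nhdsWithin
  have e2 : ∀ᶠ p : ℝ in 𝓝[>] 0, p < 1 / (2 * B) :=
    nhdsWithin_le_nhds (Iio_mem_nhds (by positivity))
  filter_upwards [e1, e2, ht.eventually_ge_atTop (5 * r * (B + 1))] with p hp0 hp1 hp2
  rw [lt_div_iff₀ (by positivity)] at hp1
  obtain ⟨n, hn, hP⟩ := quant r ρ B hr hρ hB3 p hp0 hp1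
  have hnt : (n : ℝ) ≤ t p := by
    refine hn.trans ?_
    rw [← div_eq_mul_inv, div_le_iff₀ (by positivity)]
    exact hp2
  have hsub : {ω : ℤ × ℤ → Bool | occBy r ρ ω (t p)}ᶜ ⊆
      {ω | ((0, 0) : ℤ × ℤ) ∉ occ r ρ {x | ω x = true} n} := by
    intro ω hω h
    exact hω ⟨n, hnt, h⟩
  have h1 : (siteLaw (ℤ × ℤ) p).real {ω : ℤ × ℤ → Bool | occBy r ρ ω (t p)}ᶜ ≤ 12 / B :=
    (measureReal_mono hsub (measure_ne_top _ _)).trans hP
  have h2 : (1 : ℝ) ≤ (siteLaw (ℤ × ℤ) p).real {ω : ℤ × ℤ → Bool | occBy r ρ ω (t p)} +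
      (siteLaw (ℤ × ℤ) p).real {ω : ℤ × ℤ → Bool | occBy r ρ ω (t p)}ᶜ := by
    have := measureReal_union_le (μ := siteLaw (ℤ × ℤ) p)
      {ω : ℤ × ℤ → Bool | occBy r ρ ω (t p)} {ω : ℤ × ℤ → Bool | occBy r ρ ω (t p)}ᶜ
    rwa [Set.union_compl_self, probReal_univ] at this
  have h3 : (siteLaw (ℤ × ℤ) p).real {ω : ℤ × ℤ → Bool | occBy r ρ ω (t p)} ≤ 1 :=
    measureReal_le_one
  have h4 : 12 / (B : ℝ) < ε := by
    rw [div_lt_iff₀ hB0]
    rw [div_lt_iff₀ hε] at hB1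
    linarith
  rw [Real.dist_eq, abs_lt]
  constructor <;> linarith

end Pool.Agent.V11329.LG
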