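import Mathlib

/-! Independent Bernoulli site configurations: events that depend on finitely many sites. -/

set_option autoImplicit false

namespace Pool.Agent.V11329.LG

open MeasureTheory ProbabilityTheory

/-- law of one site: `true` with probability `p` (for `p ∈ [0,1]`) -/
noncomputable def coin (p : ℝ) : Measure Bool :=
  (PMF.bernoulli (min p.toNNReal 1) (min_le_right _ _)).toMeasure

instance (p : ℝ) : IsProbabilityMeasure (coin p) := by unfold coin; infer_instance

/-- independent sites -/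
noncomputable def siteLaw (ι : Type*) (p : ℝ) : Measure (ι → Bool) :=
  Measure.infinitePi (fun _ : ι => coin p)

instance (ι : Type*) (p : ℝ) : IsProbabilityMeasure (siteLaw ι p) := by
  unfold siteLaw; infer_instance

variable {ι : Type*}

/-- the set `D` of configurations depends only on the sites in `S` -/
def Dep (S : Finset ι) (D : Set (ι → Bool)) : Prop :=
  ∀ ω ω', (∀ x ∈ S, ω x = ω' x) → ω ∈ D → ω' ∈ D

lemma Dep.iff {S : Finset ι} {D : Set (ι → Bool)} (h : Dep S D) {ω ω' : ι → Bool}
    (hω : ∀ x ∈ S, ω x = ω' x) : ω ∈ D ↔ ω' ∈ D :=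
  ⟨h ω ω' hω, h ω' ω fun x hx => (hω x hx).symm⟩

lemma Dep.mono {S T : Finset ι} {D : Set (ι → Bool)} (h : Dep S D) (hST : S ⊆ T) : Dep T D :=
  fun ω ω' hω => h ω ω' fun x hx => hω x (hST hx)

lemma Dep.compl {S : Finset ι} {D : Set (ι → Bool)} (h : Dep S D) : Dep S Dᶜ :=
  fun _ _ hω hD hD' => hD (h _ _ (fun x hx => (hω x hx).symm) hD')

lemma Dep.inter {S : Finset ι} {D E : Set (ι → Bool)} (h : Dep S D) (h' : Dep S E) :
    Dep S (D ∩ E) := fun ω ω' hω hD => ⟨h ω ω' hω hD.1, h' ω ω' hω hD.2⟩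

open Classical in
/-- extension by `false` -/
noncomputable def extd (S : Finset ι) (z : S → Bool) : ι → Bool :=
  fun x => if h : x ∈ S then z ⟨x, h⟩ else false

lemma extd_apply (S : Finset ι) (z : S → Bool) {x : ι} (h : x ∈ S) : extd S z x = z ⟨x, h⟩ := by
  unfold extd
  rw [dif_pos h]

/-- restriction map -/
def rst (S : Finset ι) (ω : ι → Bool) : S → Bool := fun x => ω x

lemma Dep.set_eq {S : Finset ι} {D : Set (ι → Bool)} (h : Dep S D) :
    D = rst S ⁻¹' {z | extd S z ∈ D} := by
  ext ω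
  exact h.iff fun x hx => by rw [extd_apply S _ hx]; rfl

lemma meas_rst (S : Finset ι) : Measurable (rst S) := by
  unfold rst
  fun_prop

lemma Dep.meas {S : Finset ι} {D : Set (ι → Bool)} (h : Dep S D) : MeasurableSet D := by
  rw [h.set_eq]
  exact meas_rst S (Set.toFinite _).measurableSet

lemma indep_sites (p : ℝ) :
    iIndepFun (fun (x : ι) (ω : ι → Bool) => ω x) (siteLaw ι p) := by
  have := iIndepFun_infinitePi (ι := ι) (Ω := fun _ => Bool) (P := fun _ => coin p)
    (X := fun _ => id) (fun _ => measurable_id)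
  exact this

lemma dep_indep (p : ℝ) {S T : Finset ι} (hST : Disjoint S T) {D E : Set (ι → Bool)}
    (hD : Dep S D) (hE : Dep T E) :
    (siteLaw ι p).real (D ∩ E) = (siteLaw ι p).real D * (siteLaw ι p).real E := by
  have h := (indep_sites (ι := ι) p).indepFun_finset S T hST (fun i => measurable_pi_apply i)
  have h2 := h.measure_inter_preimage_eq_mul {z | extd S z ∈ D} {z | extd T z ∈ E}
    (Set.toFinite _).measurableSet (Set.toFinite _).measurableSet
  have e1 : (fun (ω : ι → Bool) (i : S) => ω i) ⁻¹' {z | extd S z ∈ D} = D := hD.set_eq.symm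
  have e2 : (fun (ω : ι → Bool) (i : T) => ω i) ⁻¹' {z | extd T z ∈ E} = E := hE.set_eq.symm
  rw [e1, e2] at h2
  unfold Measure.real
  rw [h2, ENNReal.toReal_mul]

/-- finite intersections of events depending on disjoint sets of sites -/
lemma prob_iInter (p : ℝ) {κ : Type*} (I : Finset κ) (S : κ → Finset ι)
    (D : κ → Set (ι → Bool)) (hD : ∀ i ∈ I, Dep (S i) (D i))
    (hS : ∀ i ∈ I, ∀ j ∈ I, i ≠ j → Disjoint (S i) (S j)) :
    (siteLaw ι p).real (⋂ i ∈ I, D i) = ∏ i ∈ I, (siteLaw ι p).real (D i) := by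
  classical
  induction I using Finset.induction_on with
  | empty => simp
  | insert a I ha ih =>
    rw [Finset.prod_insert ha, Finset.set_biInter_insert]
    rw [← ih (fun i hi => hD i (Finset.mem_insert_of_mem hi))
      (fun i hi j hj => hS i (Finset.mem_insert_of_mem hi) j (Finset.mem_insert_of_mem hj))]
    refine dep_indep p (S := S a) (T := I.biUnion S) ?_ (hD a (Finset.mem_insert_self _ _)) ?_
    · rw [Finset.disjoint_biUnion_right]
      intro i hi
      exact hS a (Finset.mem_insert_self _ _) i (Finset.mem_insert_of_mem hi)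
        (fun h => ha (h ▸ hi))
    · intro ω ω' hω hm
      simp only [Set.mem_iInter] at hm ⊢
      intro i hi
      exact hD i (Finset.mem_insert_of_mem hi) ω ω'
        (fun x hx => hω x (Finset.mem_biUnion.2 ⟨i, hi, hx⟩)) (hm i hi)

lemma prob_open {p : ℝ} (hp : p ∈ Set.Icc (0 : ℝ) 1) (x : ι) :
    (siteLaw ι p).real {ω | ω x = true} = p := by
  have h1 : {ω : ι → Bool | ω x = true} = Set.pi (({x} : Finset ι) : Set ι) (fun _ => {true}) := by
    ext ω; simp
  unfold siteLaw Measure.real
  rw [h1, Measure.infinitePi_pi _ (fun _ _ => measurableSet_singleton _)]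
  simp only [Finset.prod_singleton]
  unfold coin
  rw [PMF.toMeasure_apply_singleton _ _ (measurableSet_singleton _)]
  have : min p.toNNReal 1 = p.toNNReal := min_eq_left (by
    rw [Real.toNNReal_le_one]; exact hp.2)
  simp [PMF.bernoulli_apply, this, hp.1]

lemma dep_single (x : ι) : Dep {x} {ω : ι → Bool | ω x = true} := by
  intro ω ω' h hω
  have := h x (Finset.mem_singleton_self x)
  simp only [Set.mem_setOf_eq] at hω ⊢
  rw [← this]; exact hω

lemma dep_all (F : Finset ι) : Dep F {ω : ι → Bool | ∀ x ∈ F, ω x = true} := by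
  intro ω ω' h hω x hx
  rw [← h x hx]; exact hω x hx

lemma prob_all {p : ℝ} (hp : p ∈ Set.Icc (0 : ℝ) 1) (F : Finset ι) :
    (siteLaw ι p).real {ω | ∀ x ∈ F, ω x = true} = p ^ F.card := by
  have h1 : {ω : ι → Bool | ∀ x ∈ F, ω x = true} = ⋂ x ∈ F, {ω : ι → Bool | ω x = true} := by
    ext ω; simp
  rw [h1, prob_iInter p F (fun x => {x}) _ (fun x _ => dep_single x)
    (fun x _ y _ hxy => by simpa using hxy)]
  rw [Finset.prod_congr rfl (fun x _ => prob_open hp x), Finset.prod_const]

/-- a line event: some cell is completely open -/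
def lineEv {β : Type*} (B : Finset β) (cell : β → Finset ι) : Set (ι → Bool) :=
  {ω | ∃ b ∈ B, ∀ x ∈ cell b, ω x = true}

lemma dep_line [DecidableEq ι] {β : Type*} (B : Finset β) (cell : β → Finset ι) :
    Dep (B.biUnion cell) (lineEv B cell) := by
  rintro ω ω' h ⟨b, hb, hx⟩
  exact ⟨b, hb, fun x hx' => by rw [← h x (Finset.mem_biUnion.2 ⟨b, hb, hx'⟩)]; exact hx x hx'⟩

lemma prob_line [DecidableEq ι] {p : ℝ} (hp : p ∈ Set.Icc (0 : ℝ) 1) {β : Type*} (B : Finset β)
    (cell : β → Finset ι) (c : ℕ) (hc : ∀ b ∈ B, (cell b).card = c)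
    (hd : ∀ b ∈ B, ∀ b' ∈ B, b ≠ b' → Disjoint (cell b) (cell b')) :
    (siteLaw ι p).real (lineEv B cell) = 1 - (1 - p ^ c) ^ B.card := by
  have h1 : (lineEv B cell)ᶜ = ⋂ b ∈ B, {ω : ι → Bool | ∀ x ∈ cell b, ω x = true}ᶜ := by
    ext ω
    simp [lineEv]
  have h2 : (siteLaw ι p).real (lineEv B cell)ᶜ = (1 - p ^ c) ^ B.card := by
    rw [h1, prob_iInter p B cell _ (fun b _ => (dep_all _).compl) hd,
      Finset.prod_congr rfl (g := fun _ => 1 - p ^ c), Finset.prod_const]
    intro b hb
    rw [probReal_compl_eq_one_sub (dep_all _).meas, prob_all hp, hc b hb]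
  rw [probReal_compl_eq_one_sub (dep_line B cell).meas] at h2
  linarith

end Pool.Agent.V11329.LG
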