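import Pool.Agent.V11329.LG.Geo

/-! Probability that all rounds succeed. -/

set_option autoImplicit false

namespace Pool.Agent.V11329.LG

open MeasureTheory ProbabilityTheory

/-- larger coordinate -/
def mxn (x : ℤ × ℤ) : ℕ := (max x.1 x.2).toNat

lemma mxn_pt (k a b : ℕ) : mxn (pt k a b) = max a b := by
  unfold mxn pt
  split_ifs <;> simp only <;> omega

noncomputable def bx (M : ℕ) : Finset (ℤ × ℤ) := Finset.Icc 0 (M : ℤ) ×ˢ Finset.Icc 0 (M : ℤ)

lemma pt_mem_bx (M k a b : ℕ) (ha : a ≤ M) (hb : b ≤ M) : pt k a b ∈ bx M := by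
  unfold bx pt
  split_ifs <;> simp only [Finset.mem_product, Finset.mem_Icc] <;> omega

/-- sites used up to round `k` -/
noncomputable def Tset (r N K k : ℕ) : Finset (ℤ × ℤ) :=
  (bx (2 * r * nn N K 0)).filter fun x => mxn x % r ≠ r - 1 ∨ 2 * r * nn N K k ≤ mxn x

/-- sites used in round `k + 1` -/
noncomputable def Sset (r N K k : ℕ) : Finset (ℤ × ℤ) :=
  (bx (2 * r * nn N K 0)).filter fun x => mxn x % r = r - 1 ∧ mxn x < 2 * r * nn N K k

lemma disj_TS (r N K k : ℕ) : Disjoint (Tset r N K k) (Sset r N K k) := by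
  rw [Finset.disjoint_left]
  intro x h1 h2
  simp only [Tset, Sset, Finset.mem_filter] at h1 h2
  omega

lemma nn_anti {N K k : ℕ} : nn N K (k + 1) ≤ nn N K k :=
  Nat.mul_le_mul le_rfl (Nat.pow_le_pow_right (by norm_num) (by omega))

lemma nn_le_zero (N K k : ℕ) : nn N K k ≤ nn N K 0 :=
  Nat.mul_le_mul le_rfl (Nat.pow_le_pow_right (by norm_num) (by omega))

lemma T_mono (r N K k : ℕ) : Tset r N K k ⊆ Tset r N K (k + 1) := by
  intro x h
  simp only [Tset, Finset.mem_filter] at h ⊢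
  refine ⟨h.1, ?_⟩
  rcases h.2 with h2 | h2
  · exact Or.inl h2
  · right
    have : 2 * r * nn N K (k + 1) ≤ 2 * r * nn N K k := Nat.mul_le_mul le_rfl nn_anti
    omega

lemma line_lt {r n g i : ℕ} (hg : g < n) (hi : i < r) : line r n g i < 2 * r * n := by
  unfold line
  have : r * (g + 1) ≤ r * n := Nat.mul_le_mul le_rfl hg
  nlinarith

lemma line_ge (r n g i : ℕ) : r * n ≤ line r n g i := by unfold line; nlinarith

lemma line_mod {r n g i : ℕ} (hi : i < r) : line r n g i % r = i := by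
  unfold line
  rw [show r * n + r * g + i = i + r * (n + g) by ring, Nat.add_mul_mod_self_left,
    Nat.mod_eq_of_lt hi]

lemma line_inj {r n g i g' i' : ℕ} (hi : i < r) (hi' : i' < r)
    (h : line r n g i = line r n g' i') : g = g' ∧ i = i' := by
  have h1 : i = i' := by rw [← line_mod (n := n) (g := g) hi, h, line_mod hi']
  subst h1
  refine ⟨?_, rfl⟩
  unfold line at h
  have h2 : r * g = r * g' := by omega
  exact Nat.eq_of_mul_eq_mul_left (by omega) h2

lemma cell0_loc {r N K g i b : ℕ} (hg : g < nn N K 0) (hi : i < r - 1) (hb : b < nn N K 0) :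
    cell0 r (nn N K 0) g i b ⊆ Tset r N K 0 := by
  intro x hx
  simp only [cell0, Finset.mem_image, Finset.mem_range] at hx
  obtain ⟨j, hj, rfl⟩ := hx
  have h1 := line_lt (r := r) hg (show i < r by omega)
  have h2 := line_ge r (nn N K 0) g i
  have h3 : r * b + j < r * nn N K 0 := by
    have : r * (b + 1) ≤ r * nn N K 0 := Nat.mul_le_mul le_rfl hb
    nlinarith
  simp only [Tset, Finset.mem_filter]
  refine ⟨pt_mem_bx _ _ _ _ (by omega) (by nlinarith), Or.inl ?_⟩
  rw [mxn_pt, max_eq_left (by omega), line_mod (by omega)]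
  omega

lemma cell1_loc {r N K k g i b : ℕ} (hk : k ≤ K) (hg : g < nn N K (k + 1)) (hi : i < r)
    (hb : b < nn N K k) :
    cell1 r k (nn N K k) (nn N K (k + 1)) g i b ⊆ Tset r N K (k + 1) ∧
    cell1 r k (nn N K k) (nn N K (k + 1)) g i b ⊆ Sset r N K k := by
  have hn := nn_succ (N := N) hk
  have h1 := line_lt (r := r) hg hi
  have h2 := line_ge r (nn N K k) b (r - 1)
  have h3 := line_lt (r := r) hb (show r - 1 < r by omega)
  have h4 := line_mod (r := r) (n := nn N K k) (g := b) (show r - 1 < r by omega)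
  have h5 : 2 * r * nn N K (k + 1) = r * nn N K k := by rw [hn]; ring
  have h6 : 2 * r * nn N K k ≤ 2 * r * nn N K 0 := Nat.mul_le_mul le_rfl (nn_le_zero _ _ _)
  have hm : mxn (pt (k + 1) (line r (nn N K (k + 1)) g i : ℕ) (line r (nn N K k) b (r - 1) : ℕ)) =
      line r (nn N K k) b (r - 1) := by
    rw [mxn_pt, max_eq_right (by omega)]
  constructor
  · intro x hx
    simp only [cell1, Finset.mem_singleton] at hx
    subst hx
    simp only [Tset, Finset.mem_filter]
    refine ⟨pt_mem_bx _ _ _ _ (by omega) (by omega), Or.inr ?_⟩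
    rw [hm]; omega
  · intro x hx
    simp only [cell1, Finset.mem_singleton] at hx
    subst hx
    simp only [Sset, Finset.mem_filter]
    refine ⟨pt_mem_bx _ _ _ _ (by omega) (by omega), ?_⟩
    rw [hm]; omega

lemma grp_sub {s : ℕ} {B : Finset ℕ} {cell : ℕ → ℕ → Finset (ℤ × ℤ)} {U : Finset (ℤ × ℤ)}
    (h : ∀ i < s, ∀ b ∈ B, cell i b ⊆ U) :
    ((Finset.range s).biUnion fun i => B.biUnion (cell i)) ⊆ U := by
  intro x hx
  simp only [Finset.mem_biUnion, Finset.mem_range] at hx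
  obtain ⟨i, hi, b, hb, hx⟩ := hx
  exact h i hi b hb hx

lemma good_dep (r N K : ℕ) : ∀ k ≤ K, ∀ ω ω' : ℤ × ℤ → Bool,
    (∀ x ∈ Tset r N K k, ω x = ω' x) → good r N K ω k = good r N K ω' k := by
  intro k
  induction k with
  | zero =>
    intro _ ω ω' h
    ext g
    simp only [good, mem_pick]
    refine and_congr_right fun hg => ?_
    refine ((dep_grp _ _ _).mono (grp_sub (U := Tset r N K 0) fun i hi b hb =>
      cell0_loc hg hi (Finset.mem_range.1 hb))).iff h
  | succ k ih =>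
    intro hk ω ω' h
    have h1 := ih (by omega) ω ω' fun x hx => h x (T_mono _ _ _ _ hx)
    ext g
    simp only [good, mem_pick]
    rw [h1]
    refine and_congr_right fun hg => ?_
    refine ((dep_grp _ _ _).mono (grp_sub (U := Tset r N K (k + 1)) fun i hi b hb =>
      (cell1_loc (by omega) hg (by omega) (Finset.mem_range.1 (good_sub _ _ _ _ _ hb))).1)).iff h

lemma pick_dep {ι : Type*} {n : ℕ} {Y : ℕ → Set (ι → Bool)} {S : Finset ι}
    (h : ∀ g < n, Dep S (Y g)) (ω ω' : ι → Bool) (hω : ∀ x ∈ S, ω x = ω' x) :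
    pick n Y ω = pick n Y ω' := by
  ext g
  rw [mem_pick, mem_pick]
  exact and_congr_right fun hg => (h g hg).iff hω

lemma pt_inj {k a b a' b' : ℕ} (h : pt k a b = pt k a' b') : a = a' ∧ b = b' := by
  unfold pt at h
  split_ifs at h <;> simp only [Prod.mk.injEq, Nat.cast_inj] at h <;> omega

lemma cell0_card (r n g i b : ℕ) : (cell0 r n g i b).card = r := by
  unfold cell0
  rw [Finset.card_image_of_injective, Finset.card_range]
  intro j j' h
  have := (pt_inj h).2
  omega

lemma cell0_disj {r n g i b g' i' b' : ℕ} (hi : i < r - 1) (hi' : i' < r - 1)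
    (h : (g, i, b) ≠ (g', i', b')) : Disjoint (cell0 r n g i b) (cell0 r n g' i' b') := by
  rw [Finset.disjoint_left]
  intro x h1 h2
  simp only [cell0, Finset.mem_image, Finset.mem_range] at h1 h2
  obtain ⟨j, hj, rfl⟩ := h1
  obtain ⟨j', hj', he⟩ := h2
  have h3 := pt_inj he
  have h4 := line_inj (show i' < r by omega) (show i < r by omega) h3.1
  have h5 : b' = b := by
    have e1 : (r * b' + j') / r = b' := by
      rw [Nat.mul_add_div (by omega), Nat.div_eq_of_lt hj', add_zero]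
    have e2 : (r * b + j) / r = b := by
      rw [Nat.mul_add_div (by omega), Nat.div_eq_of_lt hj, add_zero]
    rw [← e1, h3.2, e2]
  exact h (by rw [h4.1, h4.2, h5])

lemma cell1_disj {r k n n' g i b g' i' b' : ℕ} (hi : i < r) (hi' : i' < r)
    (h : (g, i, b) ≠ (g', i', b')) : Disjoint (cell1 r k n n' g i b) (cell1 r k n n' g' i' b') := by
  rw [Finset.disjoint_left]
  intro x h1 h2
  simp only [cell1, Finset.mem_singleton] at h1 h2
  rw [h1] at h2
  have h3 := pt_inj h2
  have h4 := line_inj hi hi' h3.1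
  have h5 := line_inj (show r - 1 < r by omega) (show r - 1 < r by omega) h3.2
  exact h (by rw [h4.1, h4.2, h5.1])

lemma round0 {r N K : ℕ} {p : ℝ} (hp : p ∈ Set.Icc (0 : ℝ) 1) (m : ℝ) (hm : 0 < m)
    (h : 2 * m ≤ nn N K 0 * (1 - (1 - p ^ r) ^ nn N K 0) ^ (r - 1)) :
    (siteLaw (ℤ × ℤ) p).real {ω | ((good r N K ω 0).card : ℝ) < m} ≤ 2 / m := by
  have h1 := round_prob hp (nn N K 0) (r - 1) (Finset.range (nn N K 0))
    (fun g => cell0 r (nn N K 0) g) r (fun g _ i _ b _ => cell0_card r _ g i b)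
    (fun g _ i hi b _ g' _ i' hi' b' _ hne => cell0_disj hi hi' hne)
    (by rw [Finset.card_range]; linarith)
  rw [Finset.card_range] at h1
  set q := (nn N K 0 : ℝ) * (1 - (1 - p ^ r) ^ nn N K 0) ^ (r - 1) with hq
  refine (measureReal_mono ?_ (measure_ne_top _ _)).trans (h1.trans ?_)
  · intro ω hω
    have : ((good r N K ω 0).card : ℝ) < m := hω
    show ((good r N K ω 0).card : ℝ) < q / 2
    linarith
  · rw [div_le_div_iff₀ (by linarith) hm]
    linarith

lemma round1 {r N K k s : ℕ} (hk : k ≤ K) (hs : s ≤ r) {p : ℝ} (hp : p ∈ Set.Icc (0 : ℝ) 1)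
    (m m' : ℝ) (hm' : 0 < m')
    (h : ∀ j : ℕ, m ≤ j → 2 * m' ≤ nn N K (k + 1) * (1 - (1 - p) ^ j) ^ s) :
    (siteLaw (ℤ × ℤ) p).real {ω | m ≤ ((good r N K ω k).card : ℝ) ∧
      (cnt (nn N K (k + 1)) (fun g => grpEv s (good r N K ω k)
        (cell1 r k (nn N K k) (nn N K (k + 1)) g)) ω : ℝ) < m'} ≤ 2 / m' := by
  refine cond_step p (Finset.range (nn N K k)).powerset (fun ω => good r N K ω k)
    (fun ω => Finset.mem_powerset.2 (good_sub r N K ω k)) (Tset r N K k) (Sset r N K k)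
    (disj_TS r N K k) ?_ (fun a => {ω | (cnt (nn N K (k + 1)) (fun g => grpEv s a
        (cell1 r k (nn N K k) (nn N K (k + 1)) g)) ω : ℝ) < m'}) ?_
    (fun a => m ≤ (a.card : ℝ)) (2 / m') (by positivity) ?_
  · intro a ω ω' hω h1
    show good r N K ω' k = a
    rw [← good_dep r N K k hk ω ω' hω]
    exact h1
  · intro a ha ω ω' hω h1
    have hsub : a ⊆ Finset.range (nn N K k) := Finset.mem_powerset.1 ha
    have h2 := pick_dep (n := nn N K (k + 1)) (Y := fun g => grpEv s a
        (cell1 r k (nn N K k) (nn N K (k + 1)) g)) (S := Sset r N K k) (fun g hg =>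
        (dep_grp _ _ _).mono (grp_sub fun i hi b hb =>
          (cell1_loc hk hg (lt_of_lt_of_le hi hs) (Finset.mem_range.1 (hsub hb))).2)) ω ω' hω
    simp only [Set.mem_ofPred_eq, cnt] at h1 ⊢
    rw [← h2]
    exact h1
  · intro a _ hma
    have h3 := h a.card hma
    have h1 := round_prob hp (nn N K (k + 1)) s a
      (fun g => cell1 r k (nn N K k) (nn N K (k + 1)) g) 1
      (fun g _ i _ b _ => Finset.card_singleton _)
      (fun g _ i hi b _ g' _ i' hi' b' _ hne =>
        cell1_disj (lt_of_lt_of_le hi hs) (lt_of_lt_of_le hi' hs) hne)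
      (by rw [pow_one]; linarith)
    rw [pow_one] at h1
    set q := (nn N K (k + 1) : ℝ) * (1 - (1 - p) ^ a.card) ^ s with hq
    refine (measureReal_mono ?_ (measure_ne_top _ _)).trans (h1.trans ?_)
    · intro ω hω
      simp only [Set.mem_ofPred_eq] at hω ⊢
      linarith
    · rw [div_le_div_iff₀ (by linarith) hm']
      linarith

lemma good_chain {r N K : ℕ} {p : ℝ} (hp : p ∈ Set.Icc (0 : ℝ) 1) (m : ℕ → ℝ)
    (hm : ∀ k, 0 < m k)
    (h0 : 2 * m 0 ≤ nn N K 0 * (1 - (1 - p ^ r) ^ nn N K 0) ^ (r - 1))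
    (h1 : ∀ k < K, ∀ j : ℕ, m k ≤ j →
      2 * m (k + 1) ≤ nn N K (k + 1) * (1 - (1 - p) ^ j) ^ (r - 1)) :
    ∀ k ≤ K, (siteLaw (ℤ × ℤ) p).real {ω | ((good r N K ω k).card : ℝ) < m k} ≤
      ∑ i ∈ Finset.range (k + 1), 2 / m i := by
  intro k
  induction k with
  | zero =>
    intro _
    rw [zero_add, Finset.sum_range_one]
    exact round0 hp (m 0) (hm 0) h0
  | succ k ih =>
    intro hk
    rw [Finset.sum_range_succ]
    have h2 := round1 (r := r) (N := N) (K := K) (k := k) (s := r - 1) (by omega) (by omega) hp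
      (m k) (m (k + 1)) (hm (k + 1)) (h1 k (by omega))
    refine le_trans ?_ (add_le_add (ih (by omega)) h2)
    refine (measureReal_mono ?_ (measure_ne_top _ _)).trans (measureReal_union_le _ _)
    intro ω hω
    by_cases h3 : ((good r N K ω k).card : ℝ) < m k
    · exact Or.inl h3
    · exact Or.inr ⟨not_lt.1 h3, hω⟩

/-- The origin is occupied by time `5 r n₀` with high probability. -/
lemma main_prob {r ρ N K : ℕ} (hr : 1 ≤ r) (hρ : r ≤ ρ) {p : ℝ} (hp : p ∈ Set.Icc (0 : ℝ) 1)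
    (m : ℕ → ℝ) (hm : ∀ k, 0 < m k)
    (h0 : 2 * m 0 ≤ nn N K 0 * (1 - (1 - p ^ r) ^ nn N K 0) ^ (r - 1))
    (h1 : ∀ k < K, ∀ j : ℕ, m k ≤ j →
      2 * m (k + 1) ≤ nn N K (k + 1) * (1 - (1 - p) ^ j) ^ (r - 1))
    (D : ℝ) (hD : 1 ≤ D)
    (h2 : ∀ j : ℕ, m K ≤ j → 2 * D ≤ nn N K (K + 1) * (1 - (1 - p) ^ j) ^ r) :
    (siteLaw (ℤ × ℤ) p).real {ω | ((0, 0) : ℤ × ℤ) ∉
      occ r ρ {x | ω x = true} (5 * r * nn N K 0)} ≤
      ∑ i ∈ Finset.range (K + 1), 2 / m i + 2 / D := by
  have h3 := round1 (r := r) (N := N) (K := K) (k := K) (s := r) le_rfl le_rfl hp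
      (m K) D (by linarith) h2
  refine le_trans ?_ (add_le_add (good_chain hp m hm h0 h1 K le_rfl) h3)
  refine (measureReal_mono ?_ (measure_ne_top _ _)).trans (measureReal_union_le _ _)
  intro ω hω
  by_cases h4 : ((good r N K ω K).card : ℝ) < m K
  · exact Or.inl h4
  · refine Or.inr ⟨not_lt.1 h4, ?_⟩
    by_contra h5
    rw [not_lt] at h5
    have h6 : 0 < cnt (nn N K (K + 1)) (fun g => grpEv r (good r N K ω K)
        (cell1 r K (nn N K K) (nn N K (K + 1)) g)) ω := by
      by_contra h7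
      rw [not_lt, Nat.le_zero] at h7
      rw [h7] at h5
      norm_num at h5
      linarith
    unfold cnt at h6
    rw [Finset.card_pos] at h6
    obtain ⟨g, hg⟩ := h6
    rw [mem_pick] at hg
    exact hω (occ_mono (tau_final r N K) (origin_occ hr hρ N K ω g hg.1 hg.2))

end Pool.Agent.V11329.LG
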